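import Mathlib
import Pool.Agent.Run7.h189.CO.Many
import Pool.Agent.Run7.h189.CO.Num

/-!
# `(k!) ^ (1 - o(1))` orders of `k` consecutive gaps between the primes of Cunningham sequences

Let `S x = a x + b` with integers `a ≥ 2` and `b` prime to `a` (`a = 2`, `b = -1`: `S^j(p) = 2^j (p - 1) + 1`, the
Cunningham sequence of the second kind; `b = 1`: the first kind). For a prime `p` let `0 = t_0 < t_1 < t_2 < …` be the
times `t` for which `S^t(p)` is prime; the differences are the gaps of the sequence of `p`. The conjecture predicts
that every vector of gaps occurs; the question is about the vectors `(1, …, 1)`. The theorem: for ALL `k ≥ 1` at least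
`k! exp (-150 k √(log k))` of the `k!` possible orders of the first `k` gaps occur for infinitely many primes `p`,
which moreover are not among the first `R` iterates of a prime and whose iterates number `t_k + 1, …, t_k + R` are
composite, and this holds for all affine maps `S` and all `R`.

Proof. The averaging argument for the coloured sieve of Maynard and Tao (starting files, `Pool.Agent.TH779.Ord`:
groups of forms are mostly hit once) is applied to the forms `a^t n + b (a^t - 1)/(a - 1)` with exact patterns
(`Run7.h189.CO.Exact`: all other iterates are made composite by congruences), the times being multiples of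
`(R + 1) (TK)!`, so that there are no local obstructions; the positions and the counting of permutations are those
of the starting theorem on consecutive prime gaps (`MP_3ec731_nt.OrdinalPatterns`).
-/

set_option autoImplicit false

namespace Pool.Agent.Results.MP_39b545_nt.AlmostAllOrdersOfGaps

/-- the `j`-th iterate of `x ↦ a x + b` at `x` -/
def S (a b : ℤ) (j : ℕ) (x : ℤ) : ℤ := (fun y : ℤ => a * y + b)^[j] x

/-- The orders of `k` consecutive gaps between primes of the orbits of `x ↦ a x + b`: the permutations `π` of
`{0, …, k - 1}` for which there are times `0 = t 0 < t 1 < ⋯ < t k`, whose differences are ordered like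
`π 0, …, π (k - 1)` (so they are different), such that for infinitely many primes `p`: for all `j ≤ t k + R` the
number `S^j(p)` is prime if and only if `j` is one of the `t i`, `i ≤ k`, and `p` is none of the first `R` iterates of
a prime `q`. -/
def Orders (a b : ℤ) (R k : ℕ) : Set (Equiv.Perm (Fin k)) :=
  {π | ∃ t : ℕ → ℕ, t 0 = 0 ∧ (∀ i < k, t i < t (i + 1)) ∧
    (∀ i j : Fin k, π i < π j ↔ t (i + 1) - t i < t (j + 1) - t j) ∧
    {p : ℕ | p.Prime ∧ (∀ j ≤ t k + R, (S a b j p).toNat.Prime ↔ ∃ i ≤ k, j = t i) ∧
      ∀ q j : ℕ, q.Prime → 0 < j → j ≤ R → S a b j q ≠ p}.Infinite}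

theorem It_eq (a b : ℤ) (j : ℕ) (x : ℤ) : Run7.h189.CO.It a b j x = S a b j x := by
  induction j with
  | zero => exact Run7.h189.CO.It_zero a b x
  | succ j ih =>
    rw [Run7.h189.CO.It_succ, ih]
    unfold S
    rw [Function.iterate_succ_apply']

/-- For all affine maps `S x = a x + b`, `a ≥ 2`, `b` prime to `a`, all `R` and all `k ≥ 1` at least
`k! exp (-150 k √(log k))` of the `k!` orders of `k` consecutive gaps between the primes of an orbit occur for
infinitely many starting primes. -/
theorem result : ∀ a b : ℤ, 2 ≤ a → IsCoprime a b → ∀ R k : ℕ, 1 ≤ k →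
    (k.factorial : ℝ) * Real.exp (-(150 * k * Real.sqrt (Real.log k))) ≤ ((Orders a b R k).ncard : ℝ) := by
  intro a b ha hab R k hk
  have h1 : Orders a b R k = Run7.h189.CO.PSO a b R k := by
    unfold Orders Run7.h189.CO.PSO
    simp only [It_eq]
  rw [h1]
  exact Run7.h189.CO.explicit (fun c N lam hlam hc hN =>
    Run7.h189.CO.perm_many_orb hlam hk hc hN a b ha hab R) hk

end Pool.Agent.Results.MP_39b545_nt.AlmostAllOrdersOfGaps
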