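import Pool.Agent.Run7.h90.AU.ExactB

set_option autoImplicit false

/-!
# Cunningham chains of the second kind of exact length `k` at the members of thin families of residues modulo a prime

Let `p` be a large prime and let `(v_i)`, `i ∈ s`, be a family of residues modulo `p` whose exponential sums
`∑ e(ξ v_i / p)`, `ξ ≠ 0`, are at most `p ^ (-ε) |s|`; the family may be very thin. Examples: the values of a sparse
polynomial of arbitrary degree on a subgroup of order `p ^ η`, the values `c_1 g_1 ^ n + ... + c_k g_k ^ n`, `n < N`,
`N ≥ p ^ η`. The theorem is about the integers `n` congruent to a member of the family modulo `p` in an interval of length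
`L ≥ p ^ (1 - δ)`. For every `k ≥ 1` the chains `n, 2 n - 1, 4 n - 3, ...` of exactly `k` numbers without prime factors
up to `z` have the frequency predicted by the conjecture of Bateman and Horn for chains of primes, with the constant
`2 ^ (k - 1) ∏ (1 - min (k, ord_q 2) / q) / (1 - 1 / q) ^ k`; chains of exactly `k` almost primes have the right order, and
the upper bound of the right order holds for primes. Exact may mean that the chain does not extend to the right (as in the
problem), or neither to the right nor to the left.

Proof: bound of Bourgain, Glibichuk and Konyagin in the form for recurrences and monomials (`Agent/Run7/h823/BK9`);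
equidistribution in the residue classes modulo all integers up to `p ^ δ` and the fundamental lemma of the sieve
(`Agent/Run7/h90/AU`), applied to chains of `k` and of `k + 1` numbers; the left neighbour `(n + 1) / 2` is treated by the
affine image of the family.
-/

namespace Pool.Agent.Results.MP_39b545_nt.ExactChainsInSparseFamilies

open Finset Filter Topology
open Pool.Agent.Run7.h90.AU (Formula Orders SparseSmall RecurrencesSmall ExactTwo CompleteTwo chainConstant)

theorem result : (∀ k : ℕ, 1 ≤ k → ∃ D : ℝ, 0 < D ∧ Tendsto (chainConstant k) atTop (𝓝 D) ∧
    Formula k (ExactTwo k) D ∧ Orders k (ExactTwo k) ∧ Formula k (CompleteTwo k) D ∧ Orders k (CompleteTwo k)) ∧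
    SparseSmall ∧ RecurrencesSmall :=
  ⟨fun _ hk => Pool.Agent.Run7.h90.AU.exact_two hk, Pool.Agent.Run7.h90.AU.sparse_small,
    Pool.Agent.Run7.h90.AU.rec_small⟩

end Pool.Agent.Results.MP_39b545_nt.ExactChainsInSparseFamilies
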