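import Mathlib
import Pool.Agent.Run7.h166.TS.ConsF

/-!
# Every infinite set of times in three sequences with exact windows, for second kind Cunningham sequences

`a_n(p) = 2 ^ n (p - 1) + 1`. A finite set `F` of times with least element `s` is an exact pattern if for many
primes `p` (at least `N ^ (1 - η)` of the primes `p ≤ N`, for every `η > 0` and arbitrarily large `N`) the primes
among `a_0(p) = p, a_1(p), …, a_(max F - s)(p)` are exactly the numbers `a_(t - s)(p)` with `t ∈ F`.
The question is about the patterns `{0, …, k - 1}`.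

Let `V` be ANY infinite set of times; there is no condition on `V`. All but finitely many elements of `V` can be
arranged (in a suitable order) in THREE sequences such that for EVERY `k` any `k` successive members of a
sequence, from some point on, form an exact pattern. More precisely, `V` contains three increasing sequences
(hubs) such that for every `k` each element of `V`, with finitely many exceptions, forms an exact pattern together
with ANY at most `k` members, far enough out, of one of the hubs. The conjecture on exact patterns predicts that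
one sequence, `V` in its natural order, is enough.

The earlier results find some infinite subset of `V` with these properties, or a proportion of the pairs, or of
the vectors, of times in boxes; here no time is left out, with finitely many exceptions, and the set
of times may be as sparse as one likes.

Proof. Coloured Maynard-Tao theorem with a constant above one quarter, with exact patterns (starting files,
`Pool.Agent.TH899.UG.Uni.exactU`). As `1` is a fixed point of `x ↦ 2 x - 1`, the forms
`2 ^ t n - (2 ^ t - 1)` have no local obstructions. For nonprincipal ultrafilters `U` on `V`, `x` is absorbed by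
`U` on the level `k` if for `U`-almost all `y_1`, ..., for `U`-almost all `y_k` the set `{x, y_1, …, y_k}` is an
exact pattern; of any four ultrafilters one absorbs `U`-almost all elements of another one, whence three
ultrafilters absorb all but finitely many elements on all levels.
-/

set_option autoImplicit false

namespace Pool.Agent.Results.MP_39b545_nt.ExactWindowsThreeSequences

open Filter Finset

/-- the second kind Cunningham sequence starting at `p` -/
def a (n p : ℕ) : ℕ := 2 ^ n * (p - 1) + 1

open Classical in
/-- the positive integers `p ≤ N` such that, if `s` is the least element of `F`, for all `y ≤ max F - s` the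
number `a_y(p)` is prime if and only if `s + y ∈ F` (for `y = 0`: `p` is prime) -/
noncomputable def starts (F : Finset ℕ) (N : ℕ) : Finset ℕ := (Icc 1 N).filter (fun p =>
  ∀ s ∈ F, (∀ x ∈ F, s ≤ x) → ∀ y : ℕ, (∃ z ∈ F, s + y ≤ z) → ((a y p).Prime ↔ s + y ∈ F))

/-- `F` is an exact pattern many times -/
def ExactPattern (F : Finset ℕ) : Prop :=
  ∀ η : ℝ, 0 < η → ∃ᶠ N : ℕ in atTop, (N : ℝ) ^ (1 - η) ≤ ((starts F N).card : ℝ)

theorem It_eq (j p : ℕ) (hp : 1 ≤ p) : Run7.h166.TS.It 2 (-1) j p = (a j p : ℤ) := by
  have h1 := Run7.h166.TS.geo 2 j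
  unfold a Run7.h166.TS.It
  push_cast [Nat.cast_sub hp]
  linarith

theorem pattern_of {F : Finset ℕ} (h : Run7.h166.TS.CPF (Run7.h166.TS.Fo 2 (-1)) F) : ExactPattern F := by
  classical
  intro η hη
  refine (Run7.h166.TS.ex_of le_rfl h η hη).mono fun N hN => hN.trans ?_
  rw [Nat.cast_le]
  refine card_le_card ?_
  intro p hp
  obtain ⟨h1, h2⟩ := mem_filter.1 hp
  have hp1 := (mem_Icc.1 h1).1
  simp only [It_eq _ p hp1, Int.toNat_natCast] at h2
  exact mem_filter.2 ⟨h1, h2⟩

/-- **Every infinite set of times in three sequences whose windows of all lengths are exact patterns.** -/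
theorem result (V : Set ℕ) (hV : V.Infinite) :
    (∃ h : Fin 3 → ℕ → ℕ, (∀ i, StrictMono (h i)) ∧ (∀ i n, h i n ∈ V) ∧
      Function.Injective (fun p : Fin 3 × ℕ => h p.1 p.2) ∧
      ∀ k : ℕ, {x ∈ V | ¬ ∃ i M, ∀ F : Finset ℕ, (∀ m ∈ F, M ≤ m) → F.card ≤ k →
        ExactPattern (insert x (F.image (h i)))}.Finite) ∧
    ∃ e : Fin 3 → ℕ → ℕ, (∀ i n, e i n ∈ V) ∧ Function.Injective (fun p : Fin 3 × ℕ => e p.1 p.2) ∧
      (V \ Set.range (fun p : Fin 3 × ℕ => e p.1 p.2)).Finite ∧
      ∀ k : ℕ, ∀ᶠ t in atTop, ∀ i, ExactPattern ((range k).image (fun j => e i (t + j))) := by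
  have hno : ∀ p : ℕ, p.Prime → ¬ (p : ℤ) ∣ (2 : ℤ) - 1 := by
    intro p hp h
    have h1 : (p : ℤ) ∣ ((1 : ℕ) : ℤ) := by simpa using h
    exact hp.one_lt.ne' (Nat.dvd_one.1 (Int.natCast_dvd_natCast.1 h1))
  have hab : IsCoprime (2 : ℤ) (-1) := isCoprime_one_right.neg_right
  have hadm : ∀ B, Run7.h166.TS.AdmF (Run7.h166.TS.Fo 2 (-1)) V B := fun B =>
    Run7.h166.TS.admF_aff hab V B (fun p hp _ h => absurd h (hno p hp))
  obtain ⟨B, hB⟩ := Run7.h166.TS.consec_F
  obtain ⟨⟨h, h1, h2, h3, h4⟩, e, h5, h6, h7, h8⟩ := hB (Run7.h166.TS.Fo 2 (-1))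
    (Run7.h166.TS.Fo_inj le_rfl _) (Run7.h166.TS.Fo_ok le_rfl hab) V hV 1 le_rfl (hadm _)
  refine ⟨⟨h, h1, h2, h3, fun k => (h4 k (hadm _)).subset ?_⟩, e, h5, h6, h7, fun k => ?_⟩
  · rintro x ⟨hx1, hx2⟩
    refine ⟨hx1, fun ⟨i, M, hM⟩ => hx2 ⟨i, M, fun F hF1 hF2 => pattern_of (hM F hF1 hF2)⟩⟩
  · exact (h8 k (hadm _)).mono fun t ht i => pattern_of (ht i)

end Pool.Agent.Results.MP_39b545_nt.ExactWindowsThreeSequences
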