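import Mathlib
import Pool.Agent.Run7.h756.CC.OrbS

/-!
# Exact isolated gaps of the sequences of the second kind at every scale, for several maps and scales at once

Let `S(x) = a x + b`; for `a = 2`, `b = -1` the iterates of a prime form its Cunningham sequence of the second
kind. A prime `p` has the `R`-isolated gap `d` if its `d`-th iterate is prime, all the other iterates up to the
`(d + R)`-th one are not prime, and `p` is none of the first `R` iterates of a prime: so the complete chain of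
`p` in the sequence has exact length one and the next prime of the sequence comes exactly `d` steps later.
-/

set_option autoImplicit false

namespace Pool.Agent.Results.MP_39b545_nt.GapsAtEveryScale

open Filter Finset
open Pool.Agent.Run7.h756.CC
open Pool.Agent.Run7.h166.TS (NH It It_zero It_succ Fo Fo_inj Fo_ok Fo_local)

/-- the `j`-th iterate of `x ↦ a x + b` -/
def S (a b : ℤ) (j : ℕ) (x : ℤ) : ℤ := (fun y : ℤ => a * y + b)^[j] x

open Classical in
/-- the primes `p ≤ N` such that the first prime iterate of `p` is the `d`-th one, the `R` iterates after it are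
not prime and `p` is none of the first `R` iterates of a prime -/
noncomputable def starts (a b : ℤ) (R d N : ℕ) : Finset ℕ := (Icc 1 N).filter (fun p => p.Prime ∧
  (S a b d p).toNat.Prime ∧ (∀ j, 0 < j → j < d → ¬ (S a b j p).toNat.Prime) ∧
  (∀ j, d < j → j ≤ d + R → ¬ (S a b j p).toNat.Prime) ∧
  ∀ q j : ℕ, q.Prime → 0 < j → j ≤ R → S a b j q ≠ p)

/-- the distance of two numbers -/
def dist (x y : ℕ) : ℕ := max x y - min x y

/-- the list `l` is a circle for the relation `adj`: its members are different, neighbours are related, the last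
and the first member are related, and it is empty or has at least three members -/
def Circle (adj : ℕ → ℕ → Prop) (l : List ℕ) : Prop :=
  l.Nodup ∧ l.IsChain adj ∧ (∀ x ∈ l.head?, ∀ y ∈ l.getLast?, adj y x) ∧ (l = [] ∨ 3 ≤ l.length)

/-- all members of `V` with at most `C` exceptions are arranged in the disjoint circles `e i` -/
def CoveredByCircles (adj : ℕ → ℕ → Prop) (V : Finset ℕ) (D C : ℕ) : Prop :=
  ∃ e : Fin D → List ℕ, (∀ i, Circle adj (e i)) ∧ (∀ i j, i ≠ j → List.Disjoint (e i) (e j)) ∧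
    (∀ i, ∀ x ∈ e i, x ∈ V) ∧ (V.filter (fun x => ∀ i, x ∉ e i)).card ≤ C

theorem It_eq (a b : ℤ) (j : ℕ) (x : ℤ) : It a b j x = S a b j x := by
  induction j with
  | zero => exact It_zero a b x
  | succ j ih =>
    rw [It_succ, ih]
    unfold S
    rw [Function.iterate_succ_apply']

theorem OG_eq (a b : ℤ) (R d N : ℕ) : OG a b R d N = starts a b R d N := by
  classical
  unfold OG starts
  simp only [It_eq]

/-- the relation: for `N' = N / D` -/
theorem gap_adj {a b : ℤ} (ha : 2 ≤ a) {R D N s t : ℕ} {η : ℝ} (hst : s ≠ t)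
    (hs : bnd a b (s + R) ≤ D) (ht : bnd a b (t + R) ≤ D) (hD : D ≤ N)
    (hN : (N : ℝ) ^ (1 - η) ≤ ((N / D : ℕ) : ℝ) ^ (1 - η / 2))
    (h : AdjN (Fo a b) R (η / 2) (N / D) (s + R) (t + R)) :
    (N : ℝ) ^ (1 - η) ≤ ((starts a b R (dist s t) N).card : ℝ) := by
  have hD0 : 1 ≤ D := (bnd_pos ha _).trans hs
  have hN' : 1 ≤ N / D := (Nat.one_le_div_iff (by omega)).2 hD
  have hle : D * (N / D) ≤ N := Nat.mul_div_le _ _
  rw [← OG_eq]
  refine hN.trans ?_
  rcases lt_or_gt_of_ne hst with h1 | h1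
  · refine (adjN_gap ha h1 hN' h).trans ?_
    have e : dist s t = t - s := by unfold dist; rw [max_eq_right h1.le, min_eq_left h1.le]
    rw [e, Nat.cast_le]
    exact card_le_card (OG_mono _ _ _ _ ((Nat.mul_le_mul_right _ hs).trans hle))
  · refine (adjN_gap ha h1 hN' (adjN_symm _ _ _ _ _ _ h)).trans ?_
    have e : dist s t = s - t := by unfold dist; rw [max_eq_left h1.le, min_eq_right h1.le]
    rw [e, Nat.cast_le]
    exact card_le_card (OG_mono _ _ _ _ ((Nat.mul_le_mul_right _ ht).trans hle))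

/-- no four-partite holes in a finite set of times, at all large scales -/
theorem nh_all (K : ℕ) (hK : ∀ f : ℕ → ℤ × ℤ, Function.Injective f →
    (∀ j, 1 ≤ (f j).1 ∧ IsCoprime (f j).1 (f j).2) → ∀ R : ℕ, ∀ X₀ : Fin 4 × Fin K → ℕ,
    Function.Injective X₀ → (∀ u v, u ≠ v → X₀ u ≤ X₀ v → R < X₀ v - X₀ u) →
    (∀ p : ℕ, p.Prime → p ≤ 4 → ∃ r : ℤ, ∀ u, ¬ (p : ℤ) ∣ (f (X₀ u)).1 * r + (f (X₀ u)).2) →
    ∀ η : ℝ, 0 < η → ∀ᶠ N : ℕ in atTop,
    ∃ u v : Fin 4 × Fin K, u.1 ≠ v.1 ∧ AdjN f R η N (X₀ u) (X₀ v))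
    {a b : ℤ} (ha : 2 ≤ a) (hab : IsCoprime a b) {R : ℕ} {V : Finset ℕ} {f : ℕ → ℕ}
    (hsep : ∀ s ∈ V, ∀ t ∈ V, s ≠ t → R < dist (f s) (f t))
    (hloc : ∀ p : ℕ, p = 2 ∨ p = 3 → (p : ℤ) ∣ a - 1 → ¬ (p : ℤ) ∣ b → ∃ c : ℕ, ∀ v ∈ V, ¬ f v ≡ c [MOD p])
    {η : ℝ} (hη : 0 < η) :
    ∀ᶠ N : ℕ in atTop, NH (fun x y => AdjN (Fo a b) R η N (f x + R) (f y + R)) V 3 K := by
  have h1 : ∀ᶠ N : ℕ in atTop, ∀ X : Fin 4 × Fin K → V, Function.Injective X →
      ∃ u v : Fin 4 × Fin K, u.1 ≠ v.1 ∧ AdjN (Fo a b) R η N (f (X u) + R) (f (X v) + R) := by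
    rw [Filter.eventually_all]
    intro X
    by_cases hX : Function.Injective X
    · have h2 := hK (Fo a b) (Fo_inj ha b) (Fo_ok ha hab) R (fun u => f (X u) + R) ?_ ?_ ?_ η hη
      · filter_upwards [h2] with N hN _
        exact hN
      · intro u v huv
        by_contra hne
        have h1 := hsep _ (X u).2 _ (X v).2 (fun h => hne (hX (Subtype.ext h)))
        have h2 : f (X u) = f (X v) := by simpa using huv
        rw [h2] at h1
        unfold dist at h1
        simp at h1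
      · intro u v huv h'
        have h1 : f (X u) ≤ f (X v) := by simpa using h'
        have h2 := hsep _ (X u).2 _ (X v).2 (fun h => huv (hX (Subtype.ext h)))
        unfold dist at h2
        rw [max_eq_right h1, min_eq_left h1] at h2
        show R < f (X v) + R - (f (X u) + R)
        omega
      · intro p hp hp4
        obtain ⟨r, hr⟩ := Fo_local hab hp (fun w => ∃ v ∈ V, w = f v + R) (by
          intro h1 h2
          obtain ⟨c, hc⟩ := hloc p (by
            have := hp.two_le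
            interval_cases p
            · exact Or.inl rfl
            · exact Or.inr rfl
            · exact absurd hp (by norm_num)) h1 h2
          refine ⟨c + R, ?_⟩
          rintro w ⟨v, hv, rfl⟩ hw
          exact hc v hv (Nat.ModEq.add_right_cancel' R hw))
        exact ⟨r, fun u => hr _ ⟨X u, (X u).2, rfl⟩⟩
    · exact Eventually.of_forall fun N h => absurd h hX
  filter_upwards [h1] with N hN X hX hXV
  exact hN (fun u => ⟨X u, hXV u⟩) (fun u v h => hX (congrArg Subtype.val h))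

theorem isChain_mem {R S : ℕ → ℕ → Prop} {V : Finset ℕ} (h : ∀ x ∈ V, ∀ y ∈ V, x ≠ y → R x y → S x y)
    (l : List ℕ) : l.Nodup → (∀ x ∈ l, x ∈ V) → l.IsChain R → l.IsChain S := by
  induction l with
  | nil => exact fun _ _ _ => List.isChain_nil
  | cons x l ih =>
    intro hn hl hc
    cases l with
    | nil => exact List.isChain_singleton _
    | cons y l =>
      rw [List.isChain_cons_cons] at hc ⊢
      rw [List.nodup_cons] at hn
      exact ⟨h x (hl x (by simp)) y (hl y (by simp)) (fun h => hn.1 (by rw [h]; simp)) hc.1,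
        ih hn.2 (fun z hz => hl z (by simp [hz])) hc.2⟩

/-- **Exact isolated gaps at every scale.** -/
theorem result (m : ℕ) (hm : 1 ≤ m) : ∃ D C : ℕ, (m = 1 → D = 3) ∧ (m = 2 → D = 17) ∧
    ∀ (V : Finset ℕ) (a b : Fin m → ℤ) (R : Fin m → ℕ) (f : Fin m → ℕ → ℕ),
      (∀ i, 2 ≤ a i ∧ IsCoprime (a i) (b i)) → (∀ i, ∀ s ∈ V, ∀ t ∈ V, s ≠ t → R i < dist (f i s) (f i t)) →
      (∀ i, ∀ p : ℕ, p = 2 ∨ p = 3 → (p : ℤ) ∣ a i - 1 → ¬ (p : ℤ) ∣ b i →
        ∃ c : ℕ, ∀ v ∈ V, ¬ f i v ≡ c [MOD p]) →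
      ∀ η : ℝ, 0 < η → ∃ N₀ : ℕ, ∀ N : Fin m → ℕ, (∀ i, N₀ ≤ N i) →
        CoveredByCircles (fun x y => ∀ i, (N i : ℝ) ^ (1 - η) ≤
          ((starts (a i) (b i) (R i) (dist (f i x) (f i y)) (N i)).card : ℝ)) V D C := by
  classical
  obtain ⟨D, hD1, hD2, hD0, hRP⟩ : ∃ D : ℕ, (m = 1 → D = 3) ∧ (m = 2 → D = 17) ∧ 1 ≤ D ∧ RP m 3 (D + 1) := by
    by_cases h1 : m = 1
    · subst h1
      exact ⟨3, fun _ => rfl, fun h => by omega, by norm_num, rp_one 3⟩
    by_cases h2 : m = 2
    · subst h2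
      exact ⟨17, fun h => by omega, fun _ => rfl, by norm_num, rp_two⟩
    · obtain ⟨R, hR1, hR⟩ := rp_exists m 3
      have hR4 : 4 ≤ R := by
        have : NeZero m := ⟨by omega⟩
        obtain ⟨T, i, hT, -⟩ := hR (fun _ _ => 0) (fun _ _ => rfl)
        have := card_le_univ T
        rw [Fintype.card_fin] at this
        omega
      exact ⟨R - 1, fun h => absurd h h1, fun h => absurd h h2, by omega, by
        rwa [Nat.sub_add_cancel hR1]⟩
  obtain ⟨K, hK, hNH⟩ := nhN
  obtain ⟨C, hC⟩ := circles_inter (K := K) hm hRP hK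
  refine ⟨D, C, hD1, hD2, fun V a b R f hab hsep hloc η₀ hη₀ => ?_⟩
  -- reduction to `η ≤ 1`
  obtain ⟨η, hη, hη1, hηle⟩ : ∃ η : ℝ, 0 < η ∧ η ≤ 1 ∧ η ≤ η₀ :=
    ⟨min η₀ 1, lt_min hη₀ one_pos, min_le_right _ _, min_le_left _ _⟩
  set B : ℕ := ∑ i, ∑ v ∈ V, bnd (a i) (b i) (f i v + R i) + 1 with hB
  have hBle : ∀ i, ∀ v ∈ V, bnd (a i) (b i) (f i v + R i) ≤ B := by
    intro i v hv
    have h1 := Finset.single_le_sum (f := fun v => bnd (a i) (b i) (f i v + R i))
      (fun _ _ => Nat.zero_le _) hv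
    have h2 := Finset.single_le_sum (f := fun i => ∑ v ∈ V, bnd (a i) (b i) (f i v + R i))
      (fun _ _ => Nat.zero_le _) (mem_univ i)
    omega
  have hev : ∀ i, ∀ᶠ N : ℕ in atTop, B ≤ N ∧ (N : ℝ) ^ (1 - η) ≤ ((N / B : ℕ) : ℝ) ^ (1 - η / 2) ∧
      NH (fun x y => AdjN (Fo (a i) (b i)) (R i) (η / 2) (N / B) (f i x + R i) (f i y + R i)) V 3 K := by
    intro i
    have h1 := nh_all K hNH (hab i).1 (hab i).2 (hsep i) (hloc i) (half_pos hη)
    have h2 : Tendsto (fun N : ℕ => N / B) atTop atTop := Nat.tendsto_div_const_atTop (by omega)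
    filter_upwards [eventually_ge_atTop B, scale_change hη hη1 B (by omega), h2.eventually h1] with N h3 h4 h5
    exact ⟨h3, h4, h5⟩
  obtain ⟨N₀, hN₀⟩ := eventually_atTop.1 (eventually_all.2 hev)
  refine ⟨N₀ + 1, fun N hN => ?_⟩
  have hN' : ∀ i, _ := fun i => hN₀ (N i) (by have := hN i; omega) i
  obtain ⟨e, ⟨he1, he2, he3⟩, hc⟩ := hC
    (fun i x y => AdjN (Fo (a i) (b i)) (R i) (η / 2) (N i / B) (f i x + R i) (f i y + R i))
    (fun i x y h => adjN_symm _ _ _ _ _ _ h) id Function.injective_id V (fun i => (hN' i).2.2)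
  have key : ∀ x ∈ V, ∀ y ∈ V, x ≠ y →
      (∀ i, AdjN (Fo (a i) (b i)) (R i) (η / 2) (N i / B) (f i x + R i) (f i y + R i)) →
      ∀ i, (N i : ℝ) ^ (1 - η₀) ≤ ((starts (a i) (b i) (R i) (dist (f i x) (f i y)) (N i)).card : ℝ) := by
    intro x hx y hy hxy h i
    have hne : f i x ≠ f i y := by
      intro h1
      have h2 := hsep i x hx y hy hxy
      rw [h1] at h2
      unfold dist at h2
      simp at h2
    have h1 := gap_adj (hab i).1 hne (hBle i x hx) (hBle i y hy) (hN' i).1 (hN' i).2.1 (h i)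
    refine le_trans ?_ h1
    refine Real.rpow_le_rpow_of_exponent_le ?_ (by linarith)
    have := hN i
    exact_mod_cast (by omega : 1 ≤ N i)
  refine ⟨e, fun j => ⟨(he1 j).1, isChain_mem key _ (he1 j).1 (he3 j) (he1 j).2.1, ?_, (he1 j).2.2.1⟩,
    he2, he3, hc⟩
  intro x hx y hy
  refine key y (he3 j y (List.mem_of_getLast? hy)) x (he3 j x (List.mem_of_head? hx)) ?_
    ((he1 j).2.2.2 x hx y hy)
  rintro rfl
  rcases (he1 j).2.2.1 with h1 | h1
  · rw [h1] at hx
    simp at hx
  · have hn := (he1 j).1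
    cases hl : e j with
    | nil => rw [hl] at h1; simp at h1
    | cons z l =>
      rw [hl] at hx hy hn h1
      have e1 : z = y := by simpa using hx
      subst e1
      have h2 : l ≠ [] := by
        rintro rfl
        simp at h1
      rw [List.nodup_cons] at hn
      apply hn.1
      rw [List.getLast?_cons_of_ne_nil h2] at hy
      exact List.mem_of_getLast? hy

end Pool.Agent.Results.MP_39b545_nt.GapsAtEveryScale
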